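import Pool.Agent.Helper79_MT4.Stmt

set_option autoImplicit false

namespace Pool.Agent.MT4.H14

open Module LinearMap Polynomial

universe u v w

section
variable {K : Type u} {V : Type v} {ι : Type w} [Field K] [CharZero K] [IsAlgClosed K]
  [AddCommGroup V] [Module K V] [FiniteDimensional K V] [Fintype ι]
  {ψ : V →ₗ[K] V →ₗ[K] K} {e : ι → End K V} {σ : ι → ι} {g : Submodule K (End K V)}
  {N : End K V}

theorem sum_e (hB : Blk4 ψ e σ g) : ∑ k, e k = 1 := by
  classical
  ext x
  have : x - (∑ k, e k) x = 0 := by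
    apply hB.one
    intro i
    rw [map_sub, LinearMap.sum_apply, map_sum, Finset.sum_eq_single i]
    · have := congrArg (fun f : End K V => f x) (hB.idem i)
      simp only [Module.End.mul_apply] at this
      rw [this, sub_self]
    · intro b _ hb
      have := congrArg (fun f : End K V => f x) (hB.orth i b (Ne.symm hb))
      simpa only [Module.End.mul_apply, LinearMap.zero_apply] using this
    · intro h; exact absurd (Finset.mem_univ _) h
  have h2 := sub_eq_zero.1 this
  simpa using h2.symm

/-- the combination. -/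
noncomputable def Nc (e : ι → End K V) (N : End K V) (c : ι → K) : End K V :=
  ∑ k, c k • (N * e k)

theorem Nc_add (c d : ι → K) : Nc e N (c + d) = Nc e N c + Nc e N d := by
  simp [Nc, add_smul, Finset.sum_add_distrib]

theorem Nc_smul (a : K) (c : ι → K) : Nc e N (a • c) = a • Nc e N c := by
  simp [Nc, Finset.smul_sum, mul_smul]

theorem NXNc (hB : Blk4 ψ e σ g) (hRK : RkStmt.{u, v}) (hN : N ∈ R0 e g) (c : ι → K)
    {X : End K V} (hX : X ∈ g) :
    N * X * Nc e N c = Nc e N (fun k => c k * trace K V (X * N * e k)) ∧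
    Nc e N c * X * N = Nc e N (fun k => c k * trace K V (X * N * e k)) := by
  have key : ∀ k, (N * e k) * X * (N * e k) = trace K V (X * N * e k) • (N * e k) := by
    intro k
    have h1 := (hRK K V (N * e k) (N * e k) (N * e k) (hN.2.2 k) (hN.2.2 k) (hN.2.2 k)).1 X
    rw [h1, LinearMap.trace_mul_comm, ← mul_assoc]
  have hNe : ∀ k, N * e k = e k * N := fun k => hB.comm N hN.1 k
  have hXe : ∀ k, X * e k = e k * X := fun k => hB.comm X hX k
  constructor
  · unfold Nc
    rw [Finset.mul_sum]
    refine Finset.sum_congr rfl fun k _ => ?_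
    rw [mul_smul_comm, mul_smul, ← key k]
    congr 1
    calc N * X * (N * e k) = N * X * (N * (e k * e k)) := by rw [hB.idem]
      _ = N * X * ((N * e k) * e k) := by simp only [mul_assoc]
      _ = N * X * (e k * N * e k) := by rw [hNe k]
      _ = N * (X * e k) * (N * e k) := by simp only [mul_assoc]
      _ = N * (e k * X) * (N * e k) := by rw [hXe k]
      _ = (N * e k) * X * (N * e k) := by simp only [mul_assoc]
  · unfold Nc
    rw [Finset.sum_mul, Finset.sum_mul]
    refine Finset.sum_congr rfl fun k _ => ?_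
    rw [smul_mul_assoc, smul_mul_assoc, mul_smul, ← key k]
    congr 1
    calc N * e k * X * N = N * (e k * e k) * X * N := by rw [hB.idem]
      _ = N * e k * (e k * X) * N := by simp only [mul_assoc]
      _ = N * e k * (X * e k) * N := by rw [hXe k]
      _ = N * e k * X * (e k * N) := by simp only [mul_assoc]
      _ = (N * e k) * X * (N * e k) := by rw [hNe k]

theorem NNc (hB : Blk4 ψ e σ g) (hN : N ∈ R0 e g) (c : ι → K) :
    N * Nc e N c = 0 ∧ Nc e N c * N = 0 := by
  have h2 : N * N = 0 := hN.2.1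
  constructor
  · unfold Nc
    rw [Finset.mul_sum]
    refine Finset.sum_eq_zero fun k _ => ?_
    rw [mul_smul_comm, ← mul_assoc, h2, zero_mul, smul_zero]
  · unfold Nc
    rw [Finset.sum_mul]
    refine Finset.sum_eq_zero fun k _ => ?_
    rw [smul_mul_assoc, mul_assoc, ← hB.comm N hN.1 k, ← mul_assoc, h2, zero_mul, smul_zero]

theorem mul_tau (hB : Blk4 ψ e σ g) (hRK : RkStmt.{u, v}) (hN : N ∈ R0 e g) {c : ι → K}
    (hc : Nc e N c ∈ g) {X : End K V} (hX : X ∈ g) :
    Nc e N (fun k => c k * trace K V (X * N * e k)) ∈ g := by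
  have h1 := hB.br _ hc X hX
  have h2 := hB.br N hN.1 _ h1
  obtain ⟨h3, h4⟩ := NXNc hB hRK hN c hX
  obtain ⟨h5, h6⟩ := NNc hB hN c
  have h7 : N * (Nc e N c * X - X * Nc e N c) - (Nc e N c * X - X * Nc e N c) * N =
      (-2 : K) • Nc e N (fun k => c k * trace K V (X * N * e k)) := by
    calc _ = (N * Nc e N c) * X - N * X * Nc e N c - Nc e N c * X * N +
          X * (Nc e N c * N) := by noncomm_ring
      _ = _ := by
        rw [h5, h6, h3, h4, zero_mul, mul_zero, neg_smul, two_smul]
        abel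
  rw [h7] at h2
  have h8 := g.smul_mem (-2 : K)⁻¹ h2
  rwa [smul_smul, inv_mul_cancel₀ (by norm_num), one_smul] at h8

theorem exists_c (hB : Blk4 ψ e σ g) (hRK : RkStmt.{u, v}) (hSep : SepStmt.{u, v, w})
    (hN : N ∈ R0 e g) (i : ι) (s : Finset ι) :
    ∃ c : ι → K, Nc e N c ∈ g ∧ c i ≠ 0 ∧ ∀ j ∈ s, j ≠ i → j ≠ σ i → c j = 0 := by
  classical
  induction s using Finset.induction_on with
  | empty =>
    refine ⟨fun _ => 1, ?_, one_ne_zero, by simp⟩
    have : Nc e N (fun _ => (1 : K)) = N := by
      simp only [Nc, one_smul]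
      rw [← Finset.mul_sum, sum_e hB, mul_one]
    rw [this]
    exact hN.1
  | insert j s hj ih =>
    obtain ⟨c, hc, hci, hcs⟩ := ih
    by_cases h : j ≠ i ∧ j ≠ σ i
    · obtain ⟨X, hX, hne⟩ := hSep K V ι ψ e σ g N hB hN i j h.1 h.2
      refine ⟨(fun k => c k * trace K V (X * N * e k)) - trace K V (X * N * e j) • c, ?_, ?_, ?_⟩
      · have h1 : Nc e N ((fun k => c k * trace K V (X * N * e k)) -
            trace K V (X * N * e j) • c) = Nc e N (fun k => c k * trace K V (X * N * e k)) -
            trace K V (X * N * e j) • Nc e N c := by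
          rw [sub_eq_add_neg, ← neg_smul, Nc_add, Nc_smul, neg_smul, sub_eq_add_neg]
        rw [h1]
        exact g.sub_mem (mul_tau hB hRK hN hc hX) (g.smul_mem _ hc)
      · simp only [Pi.sub_apply, Pi.smul_apply, smul_eq_mul]
        rw [mul_comm (c i), ← sub_mul]
        exact mul_ne_zero (sub_ne_zero.2 hne) hci
      · intro k hk hki hks
        simp only [Pi.sub_apply, Pi.smul_apply, smul_eq_mul]
        rcases Finset.mem_insert.1 hk with rfl | hk
        · ring
        · rw [hcs k hk hki hks]; ring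
    · refine ⟨c, hc, hci, ?_⟩
      intro k hk hki hks
      rcases Finset.mem_insert.1 hk with rfl | hk
      · exact absurd ⟨hki, hks⟩ h
      · exact hcs k hk hki hks

end

theorem lam (hGrp : GrpStmt.{u, v, w}) (hRK : RkStmt.{u, v}) (hSep : SepStmt.{u, v, w}) :
    LamStmt.{u, v, w} := by
  classical
  intro K V ι _ _ _ _ _ _ _ ψ e σ g N hB hN i M hM
  obtain ⟨c, hc, hci, hcs⟩ := exists_c hB hRK hSep hN i Finset.univ
  have hne : i ≠ σ i := fun h => hB.nfix i h.symm
  have hNe : ∀ k, N * e k = e k * N := fun k => hB.comm N hN.1 k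
  have hNc : Nc e N c = c i • (N * e i) + c (σ i) • (N * e (σ i)) := by
    unfold Nc
    rw [← Finset.sum_subset (Finset.subset_univ {i, σ i}), Finset.sum_pair hne]
    intro j _ hj
    simp only [Finset.mem_insert, Finset.mem_singleton, not_or] at hj
    rw [hcs j (Finset.mem_univ _) hj.1 hj.2, zero_smul]
  -- adjunction for `N e k`
  have hadj : ∀ k x y, ψ ((N * e k) x) y = -ψ x ((N * e (σ k)) y) := by
    intro k x y
    rw [Module.End.mul_apply, hB.sp N hN.1, hB.adj, hNe (σ k), Module.End.mul_apply]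
  have hsk : ∀ x y, (c i - c (σ i)) * ψ x ((N * e i) y) =
      (c i - c (σ i)) * ψ x ((N * e (σ i)) y) := by
    intro x y
    have h1 := hB.sp _ hc x y
    rw [hNc] at h1
    simp only [LinearMap.add_apply, LinearMap.smul_apply, map_add, map_smul, smul_eq_mul] at h1
    rw [hadj i, hadj (σ i), hB.inv i] at h1
    linear_combination h1
  have hcc : c i = c (σ i) := by
    by_contra hcc
    have hcc' : c i - c (σ i) ≠ 0 := sub_ne_zero.2 hcc
    obtain ⟨x, φ, hx, hφ, hA⟩ := hN.2.2 i
    have h1 : ∀ y, (N * e i) y = 0 := by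
      intro y
      apply hB.nψ
      intro x'
      rw [hB.skew, neg_eq_zero]
      have h2 := mul_left_cancel₀ hcc' (hsk x' (e i y))
      have h3 : (N * e i) (e i y) = (N * e i) y := by
        rw [← Module.End.mul_apply, mul_assoc, hB.idem]
      have h4 : (N * e (σ i)) (e i y) = 0 := by
        rw [← Module.End.mul_apply, mul_assoc, hB.orth (σ i) i (hB.nfix i), mul_zero]
        rfl
      rw [h3, h4, map_zero] at h2
      exact h2
    apply hφ
    ext y
    have h2 := h1 y
    rw [hA, LinearMap.smulRight_apply] at h2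
    simpa using (smul_eq_zero.1 h2).resolve_right hx
  have hmem : N * (e i + e (σ i)) ∈ g := by
    have h1 : N * (e i + e (σ i)) = (c i)⁻¹ • Nc e N c := by
      rw [hNc, ← hcc, ← smul_add, smul_smul, inv_mul_cancel₀ hci, one_smul, mul_add]
    rw [h1]
    exact g.smul_mem _ hc
  obtain ⟨k, a, b, hk, hab, rfl⟩ := hM
  obtain ⟨-, -, -, hbe, hconj, -⟩ := hGrp K V ι ψ e σ g hB a b hab
  have h1 : k • (a * N * b) * (e i + e (σ i)) = k • (a * (N * (e i + e (σ i))) * b) := by
    rw [smul_mul_assoc]
    congr 1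
    rw [mul_assoc (a * N), mul_add, hbe, hbe, ← add_mul]
    simp only [mul_assoc]
  rw [h1]
  exact g.smul_mem _ (hconj _ hmem)

end Pool.Agent.MT4.H14
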