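import Pool.Agent.Helper79_MT4.Stmt

set_option autoImplicit false

namespace Pool.Agent.MT4.H14

open Module LinearMap

universe u v

section
variable {K : Type u} {W : Type v} [Field K] [AddCommGroup W] [Module K W]

/-- diagonal operator of a dual pair -/
theorem pair_mem {S : Set (End K W)} (hmul : ∀ a ∈ S, ∀ b ∈ S, a * b ∈ S)
    (htr : ∀ (x : W) (θ : W →ₗ[K] K), θ x = 0 → 1 + θ.smulRight x ∈ S)
    (x y : W) (ξ η : W →ₗ[K] K) (h1 : ξ x = 1) (h2 : ξ y = 0) (h3 : η x = 0) (h4 : η y = 1)
    {a : K} (ha : a ≠ 0) :
    1 + (a - 1) • ξ.smulRight x + (a⁻¹ - 1) • η.smulRight y ∈ S := by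
  have hE1 : ∀ t : K, 1 + (t • η).smulRight x ∈ S := fun t => htr x (t • η) (by simp [h3])
  have hE2 : ∀ t : K, 1 + (t • ξ).smulRight y ∈ S := fun t => htr y (t • ξ) (by simp [h2])
  have hw : ∀ t : K, (1 + (t • η).smulRight x) * (1 + ((-t⁻¹) • ξ).smulRight y) *
      (1 + (t • η).smulRight x) ∈ S := fun t =>
    hmul _ (hmul _ (hE1 t) _ (hE2 _)) _ (hE1 t)
  have hw' : ∀ t : K, t ≠ 0 → ∀ z, ((1 + (t • η).smulRight x) *
      (1 + ((-t⁻¹) • ξ).smulRight y) * (1 + (t • η).smulRight x)) z =
      z + (t * η z - ξ z) • x + (-(t⁻¹ * ξ z) - η z) • y := by
    intro t ht z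
    have s1 : (1 + (t • η).smulRight x) z = z + (t * η z) • x := by simp
    have s2 : ∀ z', (1 + ((-t⁻¹) • ξ).smulRight y) z' = z' + (-t⁻¹ * ξ z') • y := by
      intro z'; simp
    have s3 : ∀ z', (1 + (t • η).smulRight x) z' = z' + (t * η z') • x := by
      intro z'; simp
    rw [Module.End.mul_apply, Module.End.mul_apply, s1, s2, s3]
    simp only [map_add, map_smul, smul_eq_mul, h1, h2, h3, h4, mul_one, mul_zero, add_zero]
    have e1 : t * (η z + -t⁻¹ * (ξ z + t * η z)) = -ξ z := by field_simp; ring
    have e2 : -t⁻¹ * (ξ z + t * η z) = -(t⁻¹ * ξ z) - η z := by field_simp; ring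
    rw [e1, e2]
    module
  have key := hmul _ (hw a) _ (hw (-1))
  convert key using 1
  ext z
  rw [Module.End.mul_apply, hw' (-1) (by simp), hw' a ha]
  have f1 : ξ (z + (-1 * η z - ξ z) • x + (-((-1)⁻¹ * ξ z) - η z) • y) = -η z := by
    simp only [map_add, map_smul, smul_eq_mul, h1, h2]
    ring
  have f2 : η (z + (-1 * η z - ξ z) • x + (-((-1)⁻¹ * ξ z) - η z) • y) = ξ z := by
    simp only [map_add, map_smul, smul_eq_mul, h3, h4, inv_neg, inv_one]
    ring
  rw [f1, f2]
  simp only [LinearMap.add_apply, Module.End.one_apply, LinearMap.smulRight_apply,
    LinearMap.smul_apply, inv_neg, inv_one]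
  module

end

theorem slgen : SlGenStmt.{u, v} := by
  classical
  intro K W _ _ _ _ S hmul h1 htr A hA
  let b : Basis (Fin (finrank K W)) K W := finBasis K W
  have hdiag : ∀ (s : Finset (Fin (finrank K W))) (D : Fin (finrank K W) → K),
      (∀ i, i ∉ s → D i = 1) → ∏ i, D i = 1 → Matrix.toLin b b (Matrix.diagonal D) ∈ S := by
    intro s
    induction s using Finset.induction_on with
    | empty =>
      intro D hD _
      have : D = 1 := funext fun i => hD i (by simp)
      rw [this, show Matrix.diagonal (1 : Fin (finrank K W) → K) = 1 from Matrix.diagonal_one,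
        Matrix.toLin_one]
      exact h1
    | insert i s hi ih =>
      intro D hD hp
      by_cases hs : ∃ j, j ∈ s
      · obtain ⟨j, hj⟩ := hs
        have hij : i ≠ j := fun h => hi (h ▸ hj)
        have hDi : D i ≠ 0 := by
          intro h0
          rw [Finset.prod_eq_zero (Finset.mem_univ i) h0] at hp
          exact zero_ne_one hp
        set D' : Fin (finrank K W) → K := Function.update (Function.update D i 1) j (D j * D i)
          with hD'
        set D2 : Fin (finrank K W) → K := Function.update (Function.update 1 i (D i)) j (D i)⁻¹
          with hD2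
        have e1 : D = fun k => D2 k * D' k := by
          funext k
          rw [hD', hD2]
          by_cases hkj : k = j
          · subst hkj
            simp only [Function.update_self]
            field_simp
          · by_cases hki : k = i
            · subst hki
              simp [hkj]
            · simp [hkj, hki]
        have hD2p : ∏ k, D2 k = 1 := by
          rw [← Finset.prod_subset (Finset.subset_univ {i, j}), Finset.prod_pair hij, hD2]
          · simp [hij, hDi]
          · intro k _ hk
            simp only [Finset.mem_insert, Finset.mem_singleton, not_or] at hk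
            rw [hD2]
            simp [hk.1, hk.2]
        have hp' : ∏ k, D' k = 1 := by
          have : (∏ k, D2 k) * ∏ k, D' k = 1 := by
            rw [← Finset.prod_mul_distrib, ← hp]
            exact Finset.prod_congr rfl fun k _ => (congrFun e1 k).symm
          rwa [hD2p, one_mul] at this
        have hm' : Matrix.toLin b b (Matrix.diagonal D') ∈ S := by
          apply ih D' _ hp'
          intro k hk
          rw [hD']
          have hkj : k ≠ j := fun h => hk (h ▸ hj)
          rw [Function.update_of_ne hkj]
          by_cases hki : k = i
          · subst hki; simp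
          · rw [Function.update_of_ne hki]
            exact hD k (by simp [hki, hk])
        have hm2 : Matrix.toLin b b (Matrix.diagonal D2) ∈ S := by
          have := pair_mem hmul htr (b i) (b j) (b.coord i) (b.coord j) (by simp)
            (by simp [Ne.symm hij]) (by simp [hij]) (by simp) hDi
          convert this using 1
          apply b.ext
          intro k
          rw [Matrix.toLin_self]
          simp only [LinearMap.add_apply, Module.End.one_apply, LinearMap.smulRight_apply,
            LinearMap.smul_apply, Basis.coord_apply, Basis.repr_self, Matrix.diagonal_apply]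
          rw [Finset.sum_eq_single k]
          · rw [if_pos rfl, hD2]
            by_cases hkj : k = j
            · subst hkj
              rw [Function.update_self, Finsupp.single_eq_same,
                Finsupp.single_eq_of_ne (by simpa using hij)]
              simp [sub_smul]
            · by_cases hki : k = i
              · subst hki
                rw [Function.update_of_ne hkj, Function.update_self, Finsupp.single_eq_same,
                  Finsupp.single_eq_of_ne (by simpa using Ne.symm hij)]
                simp [sub_smul]
              · rw [Function.update_of_ne hkj, Function.update_of_ne hki,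
                  Finsupp.single_eq_of_ne (by simpa using Ne.symm hki),
                  Finsupp.single_eq_of_ne (by simpa using Ne.symm hkj)]
                simp
          · intro l _ hl
            rw [if_neg hl, zero_smul]
          · intro h; exact absurd (Finset.mem_univ _) h
        have e2 : Matrix.toLin b b (Matrix.diagonal D) =
            Matrix.toLin b b (Matrix.diagonal D2) * Matrix.toLin b b (Matrix.diagonal D') := by
          rw [Module.End.mul_eq_comp, ← Matrix.toLin_mul, Matrix.diagonal_mul_diagonal, ← e1]
        rw [e2]
        exact hmul _ hm2 _ hm'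
      · push Not at hs
        have hD1 : ∀ k, k ≠ i → D k = 1 := by
          intro k hk
          exact hD k (by simp [hk, hs k])
        apply ih D _ hp
        intro k hk
        by_cases hki : k = i
        · subst hki
          rw [← hp]
          exact (Finset.prod_eq_single k (fun l _ hl => hD1 l hl)
            (fun h => absurd (Finset.mem_univ _) h)).symm
        · exact hD1 k hki
  have hdet : (LinearMap.toMatrix b b A).det = 1 := by
    rw [LinearMap.det_toMatrix, hA]
  have main : Matrix.toLin b b (LinearMap.toMatrix b b A) ∈ S := by
    refine Matrix.diagonal_transvection_induction (fun M => Matrix.toLin b b M ∈ S)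
      (LinearMap.toMatrix b b A) ?_ ?_ ?_
    · intro D hD
      apply hdiag Finset.univ D (fun i hi => absurd (Finset.mem_univ i) hi)
      rwa [Matrix.det_diagonal, hdet] at hD
    · rintro ⟨i, j, hij, c⟩
      have := htr (b i) (c • b.coord j) (by simp [hij])
      convert this using 1
      apply b.ext
      intro k
      simp only [Matrix.TransvectionStruct.toMatrix, Matrix.transvection, map_add,
        Matrix.toLin_one, LinearMap.add_apply, LinearMap.id_apply, Module.End.one_apply,
        LinearMap.smulRight_apply, LinearMap.smul_apply, Basis.coord_apply, Basis.repr_self,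
        smul_eq_mul]
      congr 1
      rw [Matrix.toLin_self]
      by_cases hkj : k = j
      · subst hkj
        rw [Finset.sum_eq_single i]
        · simp
        · intro l _ hl
          simp [Matrix.single, hl, Ne.symm hl]
        · intro h; exact absurd (Finset.mem_univ _) h
      · rw [Finset.sum_eq_zero]
        · simp [hkj]
        · intro l _
          simp [Matrix.single, Ne.symm hkj]
    · intro M M' hM hM'
      rw [Matrix.toLin_mul b b b, ← Module.End.mul_eq_comp]
      exact hmul _ hM _ hM'
  rwa [Matrix.toLin_toMatrix] at main

end Pool.Agent.MT4.H14
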